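import Mathlib
import Pool.Agent.Helper86.AN.Stmts

set_option autoImplicit false

/-!
# MP_4042d8_co (Ando): plain colourings
-/

namespace Pool.Agent.Helper81.AN

open Pool.Agent.Helper86.AN Finset

theorem st_PLAIN (hEV : ST_EV) (hRF : ST_RF) : ST_PLAIN := by
  intro V _ _ s A m w u c hK hm hw hP
  obtain ⟨-, f2, f3, -, -, -, -, f8, f9⟩ := hRF V s A m w u hK
  have hc : c (u true) = !(c (u false)) := by
    have h1 := hm (u false) (hK.uA false)
    rw [hK.mu false] at h1
    exact h1
  -- an inner vertex is a kink
  have hin : ∀ b v, v ∈ inn s A c b → ∃ i, v = u i ∧ c (u i) = b ∧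
      c (s (u i)) = c (u i) ∧ c (s.symm (u i)) = c (u i) := by
    intro b v hv
    have hvA : v ∈ A := (Finset.mem_filter.1 hv).1
    by_cases h : v ∈ Ap A u
    · exfalso
      obtain ⟨h1, h2, -⟩ := (f8 v h c b).1 hv
      have h3 := hw v h
      rw [h1, h2] at h3
      cases b <;> simp at h3
    · rw [f2] at h
      push Not at h
      obtain ⟨i, hi⟩ := h hvA
      subst hi
      obtain ⟨h1, h2, h3⟩ := (f9 i c b).1 hv
      exact ⟨i, rfl, h1, by rw [h1, h2], by rw [h1, h3]⟩
  have hmem : ∀ i, c (s (u i)) = c (u i) → c (s.symm (u i)) = c (u i) →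
      inn s A c (c (u i)) = {u i} := by
    intro i h1 h2
    ext v
    rw [Finset.mem_singleton]
    constructor
    · intro hv
      obtain ⟨j, hj, hj1, -, -⟩ := hin _ v hv
      have : j = i := by
        cases i <;> cases j
        · rfl
        · rw [hc] at hj1
          cases hb : c (u false) <;> rw [hb] at hj1 <;> simp at hj1
        · rw [hc] at hj1
          cases hb : c (u false) <;> rw [hb] at hj1 <;> simp at hj1
        · rfl
      rw [hj, this]
    · intro hv
      rw [hv]
      exact (f9 i c _).2 ⟨rfl, h1, h2⟩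
  apply hEV V s A m c hK.sinv hK.per hK.minv hm
  by_cases hq : c (s (u false)) = c (u false) ∧ c (s.symm (u false)) = c (u false)
  · have hq' := hP.1 hq
    have e1 := hmem false hq.1 hq.2
    have e2 := hmem true hq'.1 hq'.2
    refine Or.inr (Or.inl ?_)
    cases hb : c (u false) with
    | false =>
      rw [hb] at hc
      rw [hb] at e1
      rw [hc] at e2
      exact ⟨u true, u false, e2, e1⟩
    | true =>
      rw [hb] at hc
      rw [hb] at e1
      rw [hc] at e2
      exact ⟨u false, u true, e1, e2⟩
  · have hq' : ¬ (c (s (u true)) = c (u true) ∧ c (s.symm (u true)) = c (u true)) :=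
      fun h => hq (hP.2 h)
    have key : ∀ b, inn s A c b = ∅ := by
      intro b
      rw [Finset.eq_empty_iff_forall_notMem]
      intro v hv
      obtain ⟨i, -, -, h1, h2⟩ := hin b v hv
      cases i
      · exact hq ⟨h1, h2⟩
      · exact hq' ⟨h1, h2⟩
    exact Or.inl ⟨key true, key false⟩

end Pool.Agent.Helper81.AN
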